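import Mathlib

set_option autoImplicit false

open Set Filter Topology

namespace Pool.Agent.Results.MP_a45b15_gt.ImageNotSokolov

/-- The data of a monotonically Sokolov structure: `r ℱ` is a continuous retraction, `𝒩 ℱ` is a
countable external network of its range, `r ℱ` maps each member of `ℱ` into itself, and `𝒩` is
monotone; `ℱ` runs over all countable families of closed sets. -/
def IsSokolovPair {X : Type} [TopologicalSpace X] (r : Set (Set X) → X → X)
    (𝒩 : Set (Set X) → Set (Set X)) : Prop :=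
  ∀ ℱ : Set (Set X), ℱ.Countable → (∀ F ∈ ℱ, IsClosed F) →
    Continuous (r ℱ) ∧ (∀ x, r ℱ (r ℱ x) = r ℱ x) ∧ (𝒩 ℱ).Countable ∧
    (∀ a ∈ range (r ℱ), ∀ U : Set X, IsOpen U → a ∈ U → ∃ N ∈ 𝒩 ℱ, a ∈ N ∧ N ⊆ U) ∧
    (∀ F ∈ ℱ, r ℱ '' F ⊆ F) ∧
    ∀ 𝒢 : Set (Set X), 𝒢.Countable → (∀ G ∈ 𝒢, IsClosed G) → ℱ ⊆ 𝒢 → 𝒩 ℱ ⊆ 𝒩 𝒢

/-- Monotonically Sokolov spaces, as defined in the problem. -/
def MonotonicallySokolov (X : Type) [TopologicalSpace X] : Prop :=
  ∃ (r : Set (Set X) → X → X) (𝒩 : Set (Set X) → Set (Set X)), IsSokolovPair r 𝒩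

/-- The (formally stronger) version of the definition used in the literature: the assignment `𝒩` is
moreover `ω`-continuous, `𝒩 (⋃ ℱ_n) = ⋃ 𝒩 (ℱ_n)` for increasing sequences `ℱ_n` of countable
families of closed sets. -/
def MonotonicallySokolovOmega (X : Type) [TopologicalSpace X] : Prop :=
  ∃ (r : Set (Set X) → X → X) (𝒩 : Set (Set X) → Set (Set X)), IsSokolovPair r 𝒩 ∧
    ∀ ℱ : ℕ → Set (Set X), Monotone ℱ → (∀ n, (ℱ n).Countable) →
      (∀ n, ∀ F ∈ ℱ n, IsClosed F) → 𝒩 (⋃ n, ℱ n) = ⋃ n, 𝒩 (ℱ n)

theorem MonotonicallySokolovOmega.weak {X : Type} [TopologicalSpace X]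
    (h : MonotonicallySokolovOmega X) : MonotonicallySokolov X := by
  obtain ⟨r, 𝒩, h1, -⟩ := h
  exact ⟨r, 𝒩, h1⟩

/-! ### The Mrówka space of the branches of the binary tree -/

/-- The nodes and the branches of the binary tree. -/
inductive Psi : Type
  | nd : List Bool → Psi
  | br : (ℕ → Bool) → Psi

open Psi

/-- the node of the branch `b` at the level `n` -/
def node (b : ℕ → Bool) (n : ℕ) : List Bool := List.ofFn fun i : Fin n => b i

theorem node_length (b : ℕ → Bool) (n : ℕ) : (node b n).length = n := by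
  simp [node]

theorem node_ne {b c : ℕ → Bool} {k : ℕ} (h : b k ≠ c k) {m n : ℕ} (hm : k < m) :
    node b m ≠ node c n := by
  intro he
  have hmn : m = n := by
    have := congrArg List.length he
    rwa [node_length, node_length] at this
  subst hmn
  have h1 : (fun i : Fin m => b i) = fun i : Fin m => c i := List.ofFn_injective he
  exact h (congrFun h1 ⟨k, hm⟩)

/-- Nodes are isolated and the nodes of a branch converge to the branch: a set `U` is open if for
each branch `b ∈ U` all but finitely many nodes of `b` are in `U`. -/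
instance : TopologicalSpace Psi where
  IsOpen U := ∀ b : ℕ → Bool, br b ∈ U → ∃ N, ∀ n, N ≤ n → nd (node b n) ∈ U
  isOpen_univ := fun _ _ => ⟨0, fun _ _ => trivial⟩
  isOpen_inter := by
    intro U V hU hV b hb
    obtain ⟨N, hN⟩ := hU b hb.1
    obtain ⟨M, hM⟩ := hV b hb.2
    exact ⟨max N M, fun n hn => ⟨hN n (le_trans (le_max_left _ _) hn),
      hM n (le_trans (le_max_right _ _) hn)⟩⟩
  isOpen_sUnion := by
    intro S hS b hb
    obtain ⟨U, hU, hbU⟩ := hb
    obtain ⟨N, hN⟩ := hS U hU b hbU
    exact ⟨N, fun n hn => ⟨U, hU, hN n hn⟩⟩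

theorem isOpen_psi {U : Set Psi} : IsOpen U ↔ ∀ b : ℕ → Bool, br b ∈ U →
    ∃ N, ∀ n, N ≤ n → nd (node b n) ∈ U := Iff.rfl

/-- the basic neighbourhoods of a branch -/
def nb (b : ℕ → Bool) (N : ℕ) : Set Psi := insert (br b) ((fun n => nd (node b n)) '' Ici N)

theorem nb_open (b : ℕ → Bool) (N : ℕ) : IsOpen (nb b N) := by
  rw [isOpen_psi]
  intro c hc
  have hcb : c = b := by
    rcases hc with h | ⟨n, -, h⟩
    · exact Psi.br.inj h
    · exact absurd h (by simp)
  subst hcb
  exact ⟨N, fun n hn => Or.inr ⟨n, hn, rfl⟩⟩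

theorem nb_countable (b : ℕ → Bool) (N : ℕ) : (nb b N).Countable :=
  ((to_countable _).image _).insert _

theorem single_open (q : List Bool) : IsOpen ({nd q} : Set Psi) := by
  rw [isOpen_psi]
  intro b hb
  exact absurd hb (by simp)

theorem nb_compact (b : ℕ → Bool) (N : ℕ) : IsCompact (nb b N) := by
  classical
  refine isCompact_of_finite_subcover fun {ι} U hU hcov => ?_
  obtain ⟨i, hi⟩ := mem_iUnion.mp (hcov (mem_insert _ _))
  obtain ⟨M, hM⟩ := hU i b hi
  have hch : ∀ n, ∃ j, N ≤ n → nd (node b n) ∈ U j := by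
    intro n
    by_cases hn : N ≤ n
    · obtain ⟨j, hj⟩ := mem_iUnion.mp (hcov (Or.inr ⟨n, hn, rfl⟩))
      exact ⟨j, fun _ => hj⟩
    · exact ⟨i, fun h => absurd h hn⟩
  choose j hj using hch
  refine ⟨insert i ((Finset.range M).image j), ?_⟩
  rintro _ (rfl | ⟨n, hn, rfl⟩)
  · exact mem_biUnion (Finset.mem_coe.mpr (Finset.mem_insert_self _ _)) hi
  · by_cases hnM : n < M
    · refine mem_biUnion (Finset.mem_coe.mpr (Finset.mem_insert_of_mem
        (Finset.mem_image_of_mem _ (Finset.mem_range.mpr hnM)))) (hj n hn)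
    · exact mem_biUnion (Finset.mem_coe.mpr (Finset.mem_insert_self _ _)) (hM n (not_lt.mp hnM))

theorem sep_nd_br (q : List Bool) (c : ℕ → Bool) : Disjoint {nd q} (nb c (q.length + 1)) := by
  rw [disjoint_singleton_left]
  rintro (h | ⟨n, hn, h⟩)
  · exact absurd h (by simp)
  · have h1 : node c n = q := Psi.nd.inj h
    have h2 := node_length c n
    rw [h1] at h2
    have h3 : q.length + 1 ≤ n := hn
    omega

instance : T2Space Psi := by
  refine ⟨fun x y hxy => ?_⟩
  rcases x with q | b <;> rcases y with p | c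
  · refine ⟨_, _, single_open q, single_open p, rfl, rfl, ?_⟩
    rw [disjoint_singleton]
    exact hxy
  · exact ⟨_, nb c (q.length + 1), single_open q, nb_open _ _, rfl, mem_insert _ _,
      sep_nd_br q c⟩
  · exact ⟨nb b (p.length + 1), _, nb_open _ _, single_open p, mem_insert _ _, rfl,
      (sep_nd_br p b).symm⟩
  · have hbc : b ≠ c := fun h => hxy (by rw [h])
    obtain ⟨k, hk⟩ := Function.ne_iff.mp hbc
    refine ⟨nb b (k + 1), nb c (k + 1), nb_open _ _, nb_open _ _, mem_insert _ _,
      mem_insert _ _, ?_⟩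
    rw [Set.disjoint_left]
    rintro _ (rfl | ⟨n, hn, rfl⟩) (h | ⟨m, hm, h⟩)
    · exact hbc (Psi.br.inj h)
    · exact absurd h (by simp)
    · exact absurd h (by simp)
    · exact node_ne hk (show k < n from hn) (Psi.nd.inj h).symm

instance : WeaklyLocallyCompactSpace Psi := by
  refine ⟨fun x => ?_⟩
  rcases x with q | b
  · exact ⟨{nd q}, isCompact_singleton, (single_open q).mem_nhds rfl⟩
  · exact ⟨nb b 0, nb_compact b 0, (nb_open b 0).mem_nhds (mem_insert _ _)⟩

/-- a countable open neighbourhood of each point -/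
def cnb : Psi → Set Psi
  | nd q => {nd q}
  | br b => nb b 0

theorem cnb_open (x : Psi) : IsOpen (cnb x) := by
  rcases x with q | b
  · exact single_open q
  · exact nb_open b 0

theorem mem_cnb (x : Psi) : x ∈ cnb x := by
  rcases x with q | b
  · exact mem_singleton _
  · exact mem_insert _ _

theorem cnb_countable (x : Psi) : (cnb x).Countable := by
  rcases x with q | b
  · exact countable_singleton _
  · exact nb_countable b 0

theorem compact_countable {K : Set Psi} (hK : IsCompact K) : K.Countable := by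
  obtain ⟨t, ht⟩ := hK.elim_finite_subcover cnb cnb_open
    (fun x _ => mem_iUnion.mpr ⟨x, mem_cnb x⟩)
  exact (t.countable_toSet.biUnion fun x _ => cnb_countable x).mono ht

theorem nodes_dense : DenseRange (fun q : List Bool => nd q) := by
  unfold DenseRange
  rw [dense_iff_inter_open]
  rintro U hU ⟨x, hx⟩
  rcases x with q | b
  · exact ⟨_, hx, q, rfl⟩
  · obtain ⟨N, hN⟩ := isOpen_psi.mp hU b hx
    exact ⟨_, hN N le_rfl, _, rfl⟩

theorem not_countable_branches {Z : Type} [Countable Z] (f : (ℕ → Bool) → Z)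
    (hf : Function.Injective f) : False := by
  have h3 : Cardinal.mk (ℕ → Bool) = Cardinal.continuum := by simp
  have h1 : Countable (ℕ → Bool) := hf.countable
  have h2 : Cardinal.mk (ℕ → Bool) ≤ Cardinal.aleph0 := Cardinal.mk_le_aleph0
  rw [h3] at h2
  exact absurd Cardinal.aleph0_lt_continuum (not_lt.mpr h2)

/-! ### The space `L` -/

/-- The points of `Psi` and one more point `inf`. -/
inductive L : Type
  | pt : Psi → L
  | inf : L

open L

/-- All points `pt x` are isolated and the neighbourhoods of `inf` are co-countable. -/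
instance : TopologicalSpace L where
  IsOpen U := inf ∈ U → Uᶜ.Countable
  isOpen_univ := fun _ => by
    rw [compl_univ]; exact countable_empty
  isOpen_inter := by
    intro U V hU hV h
    rw [compl_inter]
    exact (hU h.1).union (hV h.2)
  isOpen_sUnion := by
    rintro S hS ⟨U, hU, h⟩
    exact (hS U hU h).mono (compl_subset_compl.mpr (subset_sUnion_of_mem hU))

theorem isOpen_L {U : Set L} : IsOpen U ↔ (inf ∈ U → Uᶜ.Countable) := Iff.rfl

theorem isClosed_L {F : Set L} : IsClosed F ↔ inf ∈ F ∨ F.Countable := by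
  rw [← isOpen_compl_iff, isOpen_L, compl_compl]
  constructor
  · intro h
    by_cases hF : inf ∈ F
    · exact Or.inl hF
    · exact Or.inr (h hF)
  · rintro (h | h) h2
    · exact absurd h h2
    · exact h

theorem clopen_L {F : Set L} (h1 : inf ∉ F) (h2 : F.Countable) : IsClopen F :=
  ⟨isClosed_L.mpr (Or.inr h2), isOpen_L.mpr fun h => absurd h h1⟩

instance : T1Space L := ⟨fun x => isClosed_L.mpr (Or.inr (countable_singleton x))⟩

theorem sep_of_clopen {X : Type} [TopologicalSpace X] {C : Set X} (hC : IsClopen C) (x : X)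
    (K : Set X) (hx : x ∉ C) (hK : K ⊆ C) :
    ∃ f : X → unitInterval, Continuous f ∧ f x = 0 ∧ EqOn f 1 K := by
  classical
  refine ⟨C.piecewise (fun _ => 1) (fun _ => 0), ?_, ?_, ?_⟩
  · refine continuous_const.piecewise ?_ continuous_const
    intro y hy
    rw [hC.frontier_eq] at hy
    exact absurd hy (notMem_empty y)
  · exact piecewise_eq_of_notMem _ _ _ hx
  · intro y hy
    exact piecewise_eq_of_mem _ _ _ (hK hy)

instance : CompletelyRegularSpace L := by
  refine ⟨fun x K hK hx => ?_⟩
  by_cases hxi : x = inf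
  · subst hxi
    have hc : K.Countable := (isClosed_L.mp hK).resolve_left hx
    exact sep_of_clopen (clopen_L hx hc) _ K hx subset_rfl
  · have hcl : IsClopen ({x}ᶜ : Set L) := (clopen_L (fun h => hxi (mem_singleton_iff.mp h).symm)
      (countable_singleton x)).compl
    refine sep_of_clopen hcl x K (fun h => h rfl) ?_
    intro y hy h
    exact hx (by rw [← mem_singleton_iff.mp h]; exact hy)

instance : T35Space L := {}

/-- the union of those members of the family which do not contain `inf` -/
def AF (ℱ : Set (Set L)) : Set L := ⋃₀ {F | F ∈ ℱ ∧ inf ∉ F}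

theorem AF_countable {ℱ : Set (Set L)} (h1 : ℱ.Countable) (h2 : ∀ F ∈ ℱ, IsClosed F) :
    (AF ℱ).Countable :=
  Set.Countable.sUnion (h1.mono fun _ hF => hF.1) fun F hF =>
    (isClosed_L.mp (h2 F hF.1)).resolve_left hF.2

theorem inf_notMem_AF (ℱ : Set (Set L)) : inf ∉ AF ℱ := by
  rintro ⟨F, hF, h⟩
  exact hF.2 h

open Classical in
/-- the retraction -/
noncomputable def ret (ℱ : Set (Set L)) (x : L) : L := if x ∈ AF ℱ then x else inf

/-- the external network -/
def net (ℱ : Set (Set L)) : Set (Set L) := (fun x => {x}) '' insert inf (AF ℱ)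

theorem sokolov_L : MonotonicallySokolovOmega L := by
  classical
  refine ⟨ret, net, ?_, ?_⟩
  · intro ℱ hc hcl
    have hA := AF_countable hc hcl
    have hi := inf_notMem_AF ℱ
    have hretmem : ∀ x ∈ AF ℱ, ret ℱ x = x := fun x hx => if_pos hx
    have hretnot : ∀ x, x ∉ AF ℱ → ret ℱ x = inf := fun x hx => if_neg hx
    refine ⟨?_, ?_, ?_, ?_, ?_, ?_⟩
    · rw [continuous_def]
      intro U hU
      rw [isOpen_L] at hU ⊢
      intro h
      have h1 : ret ℱ inf ∈ U := h
      rw [hretnot _ hi] at h1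
      refine hA.mono fun x hx => ?_
      by_contra hxA
      apply hx
      change ret ℱ x ∈ U
      rw [hretnot x hxA]
      exact h1
    · intro x
      by_cases hx : x ∈ AF ℱ
      · rw [hretmem x hx, hretmem x hx]
      · rw [hretnot x hx, hretnot _ hi]
    · exact (hA.insert _).image _
    · rintro _ ⟨x, rfl⟩ U _ hxU
      refine ⟨{ret ℱ x}, ⟨ret ℱ x, ?_, rfl⟩, rfl, singleton_subset_iff.mpr hxU⟩
      by_cases hx : x ∈ AF ℱ
      · rw [hretmem x hx]; exact mem_insert_of_mem _ hx
      · rw [hretnot x hx]; exact mem_insert _ _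
    · rintro F hF _ ⟨x, hx, rfl⟩
      by_cases hxA : x ∈ AF ℱ
      · rw [hretmem x hxA]; exact hx
      · rw [hretnot x hxA]
        by_contra hiF
        exact hxA ⟨F, ⟨hF, hiF⟩, hx⟩
    · intro 𝒢 _ _ hsub
      refine image_mono (insert_subset_insert (sUnion_subset_sUnion ?_))
      exact fun F hF => ⟨hsub hF.1, hF.2⟩
  · intro ℱ _ _ _
    have h1 : AF (⋃ n, ℱ n) = ⋃ n, AF (ℱ n) := by
      ext x
      constructor
      · rintro ⟨F, ⟨hF, hi⟩, hx⟩
        obtain ⟨n, hn⟩ := mem_iUnion.mp hF
        exact mem_iUnion.mpr ⟨n, F, ⟨hn, hi⟩, hx⟩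
      · intro hx
        obtain ⟨n, F, ⟨hF, hi⟩, hx⟩ := mem_iUnion.mp hx
        exact ⟨F, ⟨mem_iUnion.mpr ⟨n, hF⟩, hi⟩, hx⟩
    unfold net
    rw [h1, ← image_iUnion, insert_iUnion]

/-- the map of `L` onto the one-point compactification of `Psi` -/
def toY : L → OnePoint Psi
  | pt x => (x : OnePoint Psi)
  | inf => OnePoint.infty

theorem toY_surjective : Function.Surjective toY := by
  intro y
  induction y using OnePoint.rec with
  | infty => exact ⟨inf, rfl⟩
  | coe x => exact ⟨pt x, rfl⟩

theorem continuous_toY : Continuous toY := by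
  rw [continuous_def]
  intro U hU
  rw [isOpen_L]
  intro h
  have h0 : (OnePoint.infty : OnePoint Psi) ∈ U := h
  have h1 := (OnePoint.isOpen_def.mp hU).1 h0
  have h2 : (toY ⁻¹' U)ᶜ ⊆ pt '' ((fun x : Psi => (x : OnePoint Psi)) ⁻¹' U)ᶜ := by
    intro x hx
    rcases x with x | _
    · exact ⟨x, hx, rfl⟩
    · exact absurd h hx
  exact ((compact_countable h1).image _).mono h2

/-- a family of closed sets for which there is no retraction as in the Sokolov property -/
theorem not_sokolov_Y : ¬ MonotonicallySokolov (OnePoint Psi) := by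
  rintro ⟨r, 𝒩, h⟩
  let ℱ : Set (Set (OnePoint Psi)) :=
    range fun q : List Bool => ({((nd q : Psi) : OnePoint Psi)} : Set (OnePoint Psi))
  obtain ⟨h1, -, h3, h4, h5, -⟩ := h ℱ (countable_range _) (by
    rintro _ ⟨q, rfl⟩
    exact isClosed_singleton)
  -- `r ℱ` is the identity on the dense set of all nodes
  have hid : r ℱ = id := by
    have hnc : NoncompactSpace Psi := by
      refine ⟨fun hc => ?_⟩
      have h6 := compact_countable hc
      have h7 : Countable (univ : Set Psi) := h6.to_subtype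
      exact not_countable_branches (fun b => (⟨br b, trivial⟩ : (univ : Set Psi)))
        fun b c hbc => Psi.br.inj (congrArg Subtype.val hbc)
    have hd : DenseRange fun q : List Bool => ((nd q : Psi) : OnePoint Psi) :=
      DenseRange.comp (g := fun x : Psi => (x : OnePoint Psi)) OnePoint.denseRange_coe
        nodes_dense OnePoint.continuous_coe
    refine hd.equalizer h1 continuous_id (funext fun q => ?_)
    have := h5 _ ⟨q, rfl⟩ (mem_image_of_mem _ rfl)
    exact this
  -- choose an element of the network for each branch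
  have hN : ∀ b : ℕ → Bool, ∃ N ∈ 𝒩 ℱ, ((br b : Psi) : OnePoint Psi) ∈ N ∧
      N ⊆ (fun x : Psi => (x : OnePoint Psi)) '' nb b 0 := by
    intro b
    refine h4 _ ⟨((br b : Psi) : OnePoint Psi), by rw [hid]; rfl⟩ _
      (OnePoint.isOpen_image_coe.mpr (nb_open b 0)) ⟨_, mem_insert _ _, rfl⟩
  choose N hN1 hN2 hN3 using hN
  have hinj : Function.Injective fun b => (⟨N b, hN1 b⟩ : 𝒩 ℱ) := by
    intro b c hbc
    have h6 : N b = N c := congrArg Subtype.val hbc
    have h7 : ((br b : Psi) : OnePoint Psi) ∈ N c := by rw [← h6]; exact hN2 b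
    obtain ⟨x, hx, hxb⟩ := hN3 c h7
    have h8 : x = (br b : Psi) := OnePoint.coe_injective hxb
    rw [h8] at hx
    rcases hx with h | ⟨n, -, h⟩
    · exact Psi.br.inj h
    · exact absurd h (by simp)
  have : Countable (𝒩 ℱ) := h3.to_subtype
  exact not_countable_branches _ hinj

/-- **Answer to Question 1 (negative).** There are a monotonically Sokolov Tychonoff space `X` (also
for the stronger definition with an `ω`-continuous assignment) and a continuous surjection of `X`
onto a compact Hausdorff space `Y` which is not monotonically Sokolov. -/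
theorem result : ∃ (X : Type) (_ : TopologicalSpace X) (Y : Type) (_ : TopologicalSpace Y)
    (f : X → Y), T35Space X ∧ MonotonicallySokolov X ∧ MonotonicallySokolovOmega X ∧
      T35Space Y ∧ CompactSpace Y ∧ Continuous f ∧ Function.Surjective f ∧
      ¬ MonotonicallySokolov Y ∧ ¬ MonotonicallySokolovOmega Y :=
  ⟨L, inferInstance, OnePoint Psi, inferInstance, toY, inferInstance, sokolov_L.weak, sokolov_L,
    inferInstance, inferInstance, continuous_toY, toY_surjective, not_sokolov_Y,
    fun h => not_sokolov_Y h.weak⟩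

end Pool.Agent.Results.MP_a45b15_gt.ImageNotSokolov
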